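import Mathlib
import Pool.Agent.Q210.BR.Defs

/-!
# An irreducible branching random walk with infinitely many extinction vectors and infinitely many
other fixed points
-/

open Filter Topology Set MeasureTheory
open scoped ENNReal
open Pool.Agent.H632R3.Branch Pool.Agent.Q210.BR

namespace Pool.Agent.Results.MP_46e535_pr.BothInfinite

noncomputable section

variable {X : Type}

/-- The first-moment matrix `m_{xy} = ∑_f f(y) μ_x(f)`. -/
def m (μ : X → PMF (X →₀ ℕ)) (x y : X) : ℝ≥0∞ := ∑' f : X →₀ ℕ, (f y : ℝ≥0∞) * μ x f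

/-- Irreducibility: any two sites are joined by a finite path of steps with `m > 0`. -/
def Irreducible (μ : X → PMF (X →₀ ℕ)) : Prop :=
  ∀ x y : X, Relation.ReflTransGen (fun u v => 0 < m μ u v) x y

/-- The extinction probability vector
`q(x, A) = 1 - P(limsup_n ∑_{y ∈ A} η_n(y) > 0)`. -/
def q (μ : X → PMF (X →₀ ℕ)) (A : Set X) : X → ℝ := fun x =>
  1 - (law μ).real {ω | 0 < limsup (fun n => (count A (pop x ω n) : ℕ∞)) atTop}

/-- The set of extinction probability vectors. -/
def E (μ : X → PMF (X →₀ ℕ)) : Set (X → ℝ) := {z | ∃ A : Set X, z = q μ A}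

/-- The set of fixed points of the generating function `gen μ` in `[0,1]^X`. -/
def F (μ : X → PMF (X →₀ ℕ)) : Set (X → ℝ) := {z | (∀ x, 0 ≤ z x ∧ z x ≤ 1) ∧ gen μ z = z}

theorem q_eq [Countable X] (μ : X → PMF (X →₀ ℕ)) (A : Set X) : q μ A = beta μ A := by
  funext x
  have h1 : {ω : Sample X | 0 < limsup (fun n => (count A (pop x ω n) : ℕ∞)) atTop} =
      (Dev x A)ᶜ := by
    rw [← ev_zero_eq x A]
    ext ω
    simp only [mem_ofPred_eq, mem_compl_iff]
    constructor
    · intro h hev
      have h2 : limsup (fun n => (count A (pop x ω n) : ℕ∞)) atTop =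
          limsup (fun _ => (0 : ℕ∞)) (atTop : Filter ℕ) := by
        refine limsup_congr (hev.mono fun n hn => ?_)
        rw [hn]; rfl
      rw [h2, limsup_const] at h
      exact lt_irrefl _ h
    · intro h
      have h2 : ∃ᶠ n in atTop, (1 : ℕ∞) ≤ (count A (pop x ω n) : ℕ∞) := by
        intro hcon
        apply h
        refine hcon.mono fun n hn => ?_
        by_contra hne
        apply hn
        exact_mod_cast Nat.one_le_iff_ne_zero.mpr hne
      exact lt_of_lt_of_le (by norm_num) (le_limsup_of_frequently_le h2)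
  show 1 - (law μ).real _ = (law μ).real (Dev x A)
  rw [h1, probReal_compl_eq_one_sub (Dev_meas x A)]
  ring

/-! ### The example -/

/-- Sites: a root and infinitely many rays. -/
abbrev Y : Type := Option (ℕ × ℕ)

/-- The probability `1/(n+2)^2` of returning to the root from the `n`-th site of a ray. -/
def eps (n : ℕ) : ℝ≥0∞ := ((n + 2 : ℝ≥0∞) ^ 2)⁻¹

theorem eps_le (n : ℕ) : eps n ≤ 1 := by
  unfold eps
  rw [ENNReal.inv_le_one]
  have : (1 : ℝ≥0∞) ≤ n + 2 := by
    calc (1 : ℝ≥0∞) ≤ 2 := by norm_num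
      _ ≤ n + 2 := le_add_self
  exact one_le_pow₀ this

/-- A coin which is `true` with probability `eps n`. -/
def coin (n : ℕ) : PMF Bool := PMF.ofFintype (fun b => cond b (eps n) (1 - eps n)) (by
  simp [add_tsub_cancel_of_le (eps_le n)])

/-- The geometric law `2^{-(i+1)}`. -/
def geo : PMF ℕ := ⟨fun i => (2⁻¹ : ℝ≥0∞) ^ (i + 1), by
  have h : ∑' i : ℕ, (2⁻¹ : ℝ≥0∞) ^ (i + 1) = 1 := by
    rw [ENNReal.tsum_geometric_add_one, ENNReal.one_sub_inv_two, inv_inv]
    exact ENNReal.inv_mul_cancel (by norm_num) (by norm_num)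
  rw [← h]
  exact ENNReal.summable.hasSum⟩

/-- The offspring laws. From the root: two particles at the beginning of a ray, the ray `i` being
chosen with probability `2^{-(i+1)}`. From the `n`-th site of a ray: one particle, at the root with
probability `1/(n+2)^2` and at the next site of the ray otherwise. -/
def nu : Y → PMF (Y →₀ ℕ)
  | none => geo.map fun i => Finsupp.single (some (i, 0)) 2
  | some (i, n) => (coin n).map fun b =>
      cond b (Finsupp.single none 1) (Finsupp.single (some (i, n + 1)) 1)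

theorem tsum_map {α : Type} [Countable α] (p : PMF α) (g : α → (Y →₀ ℕ)) {s : Y → ℝ}
    (hs : Box s) : ∑' f : Y →₀ ℕ, ((p.map g) f).toReal * mon s f =
      ∑' a : α, (p a).toReal * mon s (g a) := by
  let _ : MeasurableSpace α := ⊤
  have _ : DiscreteMeasurableSpace α := ⟨fun _ => trivial⟩
  have hg : Measurable g := measurable_of_countable g
  have hb : ∀ (q : PMF (Y →₀ ℕ)), Integrable (mon s) q.toMeasure := by
    intro q
    refine (integrable_const (1 : ℝ)).mono'
      (measurable_of_countable (mon s)).aestronglyMeasurable (Eventually.of_forall fun f => ?_)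
    rw [Real.norm_of_nonneg (mon_nonneg hs f)]
    exact mon_le_one hs f
  have h1 := PMF.integral_eq_tsum (p.map g) (mon s) (hb _)
  have h2 : Integrable (fun a => mon s (g a)) p.toMeasure := by
    refine (integrable_const (1 : ℝ)).mono'
      (measurable_of_countable fun a => mon s (g a)).aestronglyMeasurable
      (Eventually.of_forall fun f => ?_)
    rw [Real.norm_of_nonneg (mon_nonneg hs _)]
    exact mon_le_one hs _
  have h3 := PMF.integral_eq_tsum p (fun a => mon s (g a)) h2
  simp only [smul_eq_mul] at h1 h3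
  rw [← h1, ← h3, ← PMF.toMeasure_map g p hg, integral_map hg.aemeasurable
    (measurable_of_countable (mon s)).aestronglyMeasurable]

theorem mon_single' (v : Y → ℝ) (x : Y) (k : ℕ) : mon v (Finsupp.single x k) = v x ^ k :=
  Finsupp.prod_single_index (h := fun y k => v y ^ k) (pow_zero _)

theorem eps_toReal (n : ℕ) : (eps n).toReal = 1 / ((n : ℝ) + 2) ^ 2 := by
  unfold eps
  rw [ENNReal.toReal_inv, ENNReal.toReal_pow, ENNReal.toReal_add (by simp) (by simp)]
  simp

theorem gen_some {s : Y → ℝ} (hs : Box s) (i n : ℕ) :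
    gen nu s (some (i, n)) = (1 - 1 / ((n : ℝ) + 2) ^ 2) * s (some (i, n + 1)) +
      1 / ((n : ℝ) + 2) ^ 2 * s none := by
  have h := tsum_map (coin n) (fun b =>
      cond b (Finsupp.single none 1) (Finsupp.single (some (i, n + 1)) 1)) hs
  have h2 : gen nu s (some (i, n)) = ∑' a : Bool, ((coin n) a).toReal * mon s
      (cond a (Finsupp.single none 1) (Finsupp.single (some (i, n + 1)) 1)) := h
  rw [h2, tsum_bool]
  simp only [coin, PMF.ofFintype_apply, cond_true, cond_false, mon_single', pow_one]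
  rw [ENNReal.toReal_sub_of_le (eps_le n) ENNReal.one_ne_top, eps_toReal]
  simp

theorem gen_none {s : Y → ℝ} (hs : Box s) :
    gen nu s none = ∑' i : ℕ, (geo i).toReal * s (some (i, 0)) ^ 2 := by
  have h := tsum_map geo (fun i => Finsupp.single (some (i, 0)) 2) hs
  simp only [mon_single'] at h
  exact h

theorem geo_sum : ∑' i : ℕ, (geo i).toReal = 1 := by
  rw [← ENNReal.tsum_toReal_eq fun i => PMF.apply_ne_top _ _, PMF.tsum_coe]
  simp

/-- The probability `r n = (n+1)/(n+2)` of staying forever on a ray, from its `n`-th site. -/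
def r (n : ℕ) : ℝ := ((n : ℝ) + 1) / ((n : ℝ) + 2)

theorem r_nonneg (n : ℕ) : 0 ≤ r n := by unfold r; positivity

theorem r_lt_one (n : ℕ) : r n < 1 := by
  unfold r
  rw [div_lt_one (by positivity)]
  linarith

theorem r_rec (n : ℕ) : (1 - 1 / ((n : ℝ) + 2) ^ 2) * r (n + 1) = r n := by
  unfold r
  push_cast
  have h1 : (n : ℝ) + 2 ≠ 0 := by positivity
  have h2 : (n : ℝ) + 1 + 2 ≠ 0 := by positivity
  field_simp
  ring

theorem e_nonneg (n : ℕ) : 0 ≤ 1 / ((n : ℝ) + 2) ^ 2 := by positivity

theorem e_le (n : ℕ) : 0 ≤ 1 - 1 / ((n : ℝ) + 2) ^ 2 := by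
  rw [sub_nonneg, div_le_one (by positivity)]
  have : (0 : ℝ) ≤ n := Nat.cast_nonneg n
  nlinarith

theorem r_tendsto : Tendsto r atTop (𝓝 1) := by
  have h : r = fun n : ℕ => 1 - 1 / ((n : ℝ) + 2) := by
    funext n
    unfold r
    have h1 : (n : ℝ) + 2 ≠ 0 := by positivity
    field_simp
    ring
  rw [h]
  have h2 : Tendsto (fun n : ℕ => 1 / ((n : ℝ) + 2)) atTop (𝓝 0) := by
    have h3 : Tendsto (fun n : ℕ => (n : ℝ) + 2) atTop atTop :=
      tendsto_atTop_add_const_right _ _ tendsto_natCast_atTop_atTop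
    have h4 := tendsto_inv_atTop_zero.comp h3
    refine h4.congr fun n => ?_
    simp
  have h5 := h2.const_sub 1
  rwa [sub_zero] at h5

/-! ### The explicit fixed points -/

/-- The fixed point with parameter `b`. -/
def zb (b : ℝ) : Y → ℝ
  | none => b ^ 2
  | some (_, n) => r n * (2 * b - b ^ 2) + (1 - r n) * b ^ 2

theorem zb_box {b : ℝ} (h0 : 0 ≤ b) (h1 : b ≤ 1) : Box (zb b) := by
  intro x
  match x with
  | none => exact ⟨sq_nonneg b, pow_le_one₀ h0 h1⟩
  | some (i, n) =>
    show 0 ≤ r n * (2 * b - b ^ 2) + (1 - r n) * b ^ 2 ∧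
      r n * (2 * b - b ^ 2) + (1 - r n) * b ^ 2 ≤ 1
    have hr0 := r_nonneg n
    have hr1 := (r_lt_one n).le
    have a1 : 0 ≤ 2 * b - b ^ 2 := by nlinarith
    have a2 : 2 * b - b ^ 2 ≤ 1 := by nlinarith [sq_nonneg (b - 1)]
    have a3 : 0 ≤ b ^ 2 := sq_nonneg b
    have a4 : b ^ 2 ≤ 1 := pow_le_one₀ h0 h1
    constructor
    · have := mul_nonneg hr0 a1
      have := mul_nonneg (sub_nonneg.mpr hr1) a3
      linarith
    · have := mul_le_mul_of_nonneg_left a2 hr0
      have := mul_le_mul_of_nonneg_left a4 (sub_nonneg.mpr hr1)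
      linarith

theorem zb_fixed {b : ℝ} (h0 : 0 ≤ b) (h1 : b ≤ 1) : gen nu (zb b) = zb b := by
  funext x
  match x with
  | none =>
    rw [gen_none (zb_box h0 h1)]
    have h2 : ∀ i : ℕ, (geo i).toReal * zb b (some (i, 0)) ^ 2 = (geo i).toReal * b ^ 2 := by
      intro i
      have : zb b (some (i, 0)) = b := by
        show r 0 * (2 * b - b ^ 2) + (1 - r 0) * b ^ 2 = b
        unfold r
        norm_num
        ring
      rw [this]
    simp_rw [h2]
    rw [tsum_mul_right, geo_sum, one_mul]
    rfl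
  | some (i, n) =>
    rw [gen_some (zb_box h0 h1)]
    show (1 - 1 / ((n : ℝ) + 2) ^ 2) *
        (r (n + 1) * (2 * b - b ^ 2) + (1 - r (n + 1)) * b ^ 2) +
        1 / ((n : ℝ) + 2) ^ 2 * b ^ 2 = r n * (2 * b - b ^ 2) + (1 - r n) * b ^ 2
    rw [← r_rec n]
    ring

/-! ### Bounds for the extinction vectors -/

theorem aSeq_low (A : Set Y) (i n : ℕ) (hA : ∀ k, n ≤ k → some (i, k) ∉ A) (j : ℕ) :
    ∀ k, n ≤ k → r k ≤ aSeq nu A j (some (i, k)) := by
  induction j with
  | zero =>
    intro k hk
    show r k ≤ chi A (some (i, k))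
    unfold chi
    rw [if_neg (hA k hk)]
    exact (r_lt_one k).le
  | succ j ih =>
    intro k hk
    show r k ≤ chi A (some (i, k)) * gen nu (aSeq nu A j) (some (i, k))
    have hc : chi A (some (i, k)) = 1 := by unfold chi; rw [if_neg (hA k hk)]
    rw [hc, one_mul, gen_some (aSeq_box nu A j)]
    have h1 := mul_le_mul_of_nonneg_left (ih (k + 1) (by omega)) (e_le k)
    rw [r_rec] at h1
    have h2 := mul_nonneg (e_nonneg k) (aSeq_box nu A j none).1
    linarith

theorem alpha_le_beta (A : Set Y) (x : Y) : alpha nu A x ≤ beta nu A x :=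
  measureReal_mono (subset_iUnion (fun K => Cev x K A) 0)

theorem beta_low (A : Set Y) (i n : ℕ) (hA : ∀ k, n ≤ k → some (i, k) ∉ A) :
    ∀ k, n ≤ k → r k ≤ beta nu A (some (i, k)) := by
  intro k hk
  refine le_trans ?_ (alpha_le_beta A _)
  exact ge_of_tendsto' ((tendsto_pi_nhds.mp (aSeq_tendsto nu A)) (some (i, k))) fun j =>
    aSeq_low A i n hA j k hk

theorem aSeq_high (A : Set Y) (i n : ℕ) (hn : some (i, n) ∈ A) :
    ∀ d k : ℕ, k + d = n → ∀ j, d ≤ j → aSeq nu A j (some (i, k)) ≤ 1 - r k / r n := by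
  intro d
  induction d with
  | zero =>
    intro k hk j _
    have hkn : k = n := by omega
    subst hkn
    have hr : r k ≠ 0 := by
      have : 0 < r k := by unfold r; positivity
      exact this.ne'
    rw [div_self hr, sub_self]
    have hc : chi A (some (i, k)) = 0 := by unfold chi; rw [if_pos hn]
    cases j with
    | zero =>
      show chi A (some (i, k)) ≤ 0
      rw [hc]
    | succ j =>
      show chi A (some (i, k)) * gen nu (aSeq nu A j) (some (i, k)) ≤ 0
      rw [hc, zero_mul]
  | succ d ih =>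
    intro k hk j hj
    obtain ⟨j, rfl⟩ : ∃ j', j = j' + 1 := ⟨j - 1, by omega⟩
    show chi A (some (i, k)) * gen nu (aSeq nu A j) (some (i, k)) ≤ _
    have h1 : chi A (some (i, k)) * gen nu (aSeq nu A j) (some (i, k)) ≤
        gen nu (aSeq nu A j) (some (i, k)) :=
      mul_le_of_le_one_left ((gen_good nu).box _ (aSeq_box nu A j) _).1 (chi_box A _).2
    refine h1.trans ?_
    rw [gen_some (aSeq_box nu A j)]
    have h2 := mul_le_mul_of_nonneg_left (ih (k + 1) (by omega) j (by omega)) (e_le k)
    have h3 := mul_le_mul_of_nonneg_left (aSeq_box nu A j none).2 (e_nonneg k)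
    have h4 : (1 - 1 / ((k : ℝ) + 2) ^ 2) * (1 - r (k + 1) / r n) =
        (1 - 1 / ((k : ℝ) + 2) ^ 2) - r k / r n := by
      rw [mul_sub, mul_one, ← mul_div_assoc, r_rec]
    rw [h4] at h2
    linarith

theorem beta_high (A : Set Y) (i : ℕ) (hA : ∀ n, ∃ k, n ≤ k ∧ some (i, k) ∈ A) (n : ℕ) :
    beta nu A (some (i, n)) ≤ 1 - r n := by
  have h1 : ∀ n, alpha nu A (some (i, n)) ≤ 1 - r n := by
    intro n
    obtain ⟨k, hk, hkA⟩ := hA n
    have h2 : ∀ᶠ j in atTop, aSeq nu A j (some (i, n)) ≤ 1 - r n / r k := by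
      filter_upwards [eventually_ge_atTop (k - n)] with j hj
      exact aSeq_high A i k hkA (k - n) n (by omega) j hj
    have h3 := le_of_tendsto ((tendsto_pi_nhds.mp (aSeq_tendsto nu A)) (some (i, n))) h2
    refine h3.trans ?_
    have h4 : r n ≤ r n / r k := by
      have hk0 : 0 < r k := by unfold r; positivity
      rw [le_div_iff₀ hk0]
      exact mul_le_of_le_one_right (r_nonneg n) (r_lt_one k).le
    linarith
  have h2 : ∀ j n, (gen nu)^[j] (alpha nu A) (some (i, n)) ≤ 1 - r n := by
    intro j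
    induction j with
    | zero => exact h1
    | succ j ih =>
      intro n
      rw [Function.iterate_succ_apply', gen_some (iter_gen_box nu j (alpha_box nu A))]
      have h3 := mul_le_mul_of_nonneg_left (ih (n + 1)) (e_le n)
      have h4 := mul_le_mul_of_nonneg_left
        (iter_gen_box nu j (alpha_box nu A) none).2 (e_nonneg n)
      have h5 : (1 - 1 / ((n : ℝ) + 2) ^ 2) * (1 - r (n + 1)) =
          (1 - 1 / ((n : ℝ) + 2) ^ 2) - r n := by
        rw [mul_sub, mul_one, r_rec]
      rw [h5] at h3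
      linarith
  exact le_of_tendsto' ((tendsto_pi_nhds.mp (alpha_iter_tendsto nu A)) (some (i, n))) fun j =>
    h2 j n

/-! ### Irreducibility -/

theorem m_pos {x y : Y} (f : Y →₀ ℕ) (hf : f y ≠ 0) (hx : nu x f ≠ 0) : 0 < m nu x y := by
  unfold m
  rw [pos_iff_ne_zero, Ne, ENNReal.tsum_eq_zero]
  intro h
  have := h f
  rw [mul_eq_zero] at this
  rcases this with h1 | h1
  · exact hf (by exact_mod_cast h1)
  · exact hx h1

theorem m_step (i n : ℕ) : 0 < m nu (some (i, n)) (some (i, n + 1)) := by
  refine m_pos (Finsupp.single (some (i, n + 1)) 1) (by simp) ?_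
  show ((coin n).map fun b => cond b (Finsupp.single none 1)
    (Finsupp.single (some (i, n + 1)) 1)) _ ≠ 0
  rw [← PMF.mem_support_iff, PMF.mem_support_map_iff]
  refine ⟨false, ?_, rfl⟩
  rw [PMF.mem_support_iff]
  simp only [coin, PMF.ofFintype_apply, cond_false]
  rw [Ne, tsub_eq_zero_iff_le, not_le]
  unfold eps
  rw [ENNReal.inv_lt_one]
  have h1 : (1 : ℝ≥0∞) < n + 2 := by
    calc (1 : ℝ≥0∞) < 2 := by norm_num
      _ ≤ n + 2 := le_add_self
  exact one_lt_pow₀ h1 (by norm_num)

theorem m_back (i n : ℕ) : 0 < m nu (some (i, n)) none := by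
  refine m_pos (Finsupp.single none 1) (by simp) ?_
  show ((coin n).map fun b => cond b (Finsupp.single none 1)
    (Finsupp.single (some (i, n + 1)) 1)) _ ≠ 0
  rw [← PMF.mem_support_iff, PMF.mem_support_map_iff]
  refine ⟨true, ?_, rfl⟩
  rw [PMF.mem_support_iff]
  simp only [coin, PMF.ofFintype_apply, cond_true]
  unfold eps
  rw [Ne, ENNReal.inv_eq_zero]
  exact ENNReal.pow_ne_top (by simp)

theorem m_root (i : ℕ) : 0 < m nu none (some (i, 0)) := by
  refine m_pos (Finsupp.single (some (i, 0)) 2) (by simp) ?_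
  show (geo.map fun i => Finsupp.single (some (i, 0)) 2) _ ≠ 0
  rw [← PMF.mem_support_iff, PMF.mem_support_map_iff]
  refine ⟨i, ?_, rfl⟩
  rw [PMF.mem_support_iff]
  show (2⁻¹ : ℝ≥0∞) ^ (i + 1) ≠ 0
  exact pow_ne_zero _ (by simp)

theorem irr : Irreducible nu := by
  have h1 : ∀ x : Y, Relation.ReflTransGen (fun u v => 0 < m nu u v) x none := by
    intro x
    match x with
    | none => exact Relation.ReflTransGen.refl
    | some (i, n) => exact Relation.ReflTransGen.single (m_back i n)
  have h2 : ∀ i n : ℕ, Relation.ReflTransGen (fun u v => 0 < m nu u v) none (some (i, n)) := by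
    intro i n
    induction n with
    | zero => exact Relation.ReflTransGen.single (m_root i)
    | succ n ih => exact ih.tail (m_step i n)
  intro x y
  match y with
  | none => exact h1 x
  | some (i, n) => exact (h1 x).trans (h2 i n)

/-! ### The theorem -/

/-- There is an irreducible branching random walk, not singular (some particle has more than one
child with probability one), for which both `E_G` and `F_G \ E_G` have the cardinality of the
continuum. In particular both are infinite. -/
theorem result : ∃ (X : Type) (_ : Countable X) (μ : X → PMF (X →₀ ℕ)),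
    Irreducible μ ∧ (∃ x, ∀ f, μ x f ≠ 0 → 1 < f.sum fun _ k => k) ∧
      Cardinal.mk (E μ) = Cardinal.continuum ∧
      Cardinal.mk (F μ \ E μ : Set (X → ℝ)) = Cardinal.continuum := by
  refine ⟨Y, inferInstance, nu, irr, ⟨none, ?_⟩, ?_, ?_⟩
  · intro f hf
    have hf' : (geo.map fun i => Finsupp.single (some (i, 0)) 2) f ≠ 0 := hf
    rw [← PMF.mem_support_iff, PMF.mem_support_map_iff] at hf'
    obtain ⟨i, _, rfl⟩ := hf'
    rw [Finsupp.sum_single_index rfl]
    norm_num
  · refine le_antisymm (card_le _) ?_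
    -- sets of rays
    let B : Set ℕ → Set Y := fun I => {x | ∃ i n : ℕ, i ∈ I ∧ x = some (i, n)}
    have hin : ∀ (I : Set ℕ) (i : ℕ), i ∈ I → q nu (B I) (some (i, 1)) ≤ 1 / 3 := by
      intro I i hi
      rw [q_eq]
      have h := beta_high (B I) i (fun n => ⟨n, le_rfl, i, n, hi, rfl⟩) 1
      have h2 : (1 : ℝ) - r 1 = 1 / 3 := by unfold r; norm_num
      rwa [h2] at h
    have hout : ∀ (I : Set ℕ) (i : ℕ), i ∉ I → 2 / 3 ≤ q nu (B I) (some (i, 1)) := by
      intro I i hi
      rw [q_eq]
      have h := beta_low (B I) i 0 (fun k _ => ?_) 1 (by norm_num)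
      · have h2 : r 1 = 2 / 3 := by unfold r; norm_num
        rwa [h2] at h
      · rintro ⟨i', n', hi', h⟩
        simp only [Option.some.injEq, Prod.mk.injEq] at h
        exact hi (h.1 ▸ hi')
    have hinj : Function.Injective fun I : Set ℕ => (⟨q nu (B I), B I, rfl⟩ : E nu) := by
      intro I J h
      have h1 : q nu (B I) = q nu (B J) := congrArg Subtype.val h
      ext i
      have h2 := congrFun h1 (some (i, 1))
      constructor
      · intro hi
        by_contra hj
        have := hin I i hi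
        have := hout J i hj
        linarith
      · intro hj
        by_contra hi
        have := hin J i hj
        have := hout I i hi
        linarith
    have h3 := Cardinal.mk_le_of_injective hinj
    rwa [Cardinal.mk_set, Cardinal.mk_nat, Cardinal.two_power_aleph0] at h3
  · refine le_antisymm (card_le _) ?_
    have hnot : ∀ b : ℝ, b ∈ Ioo (0 : ℝ) 1 → zb b ∈ F nu \ E nu := by
      intro b hb
      refine ⟨⟨zb_box hb.1.le hb.2.le, zb_fixed hb.1.le hb.2.le⟩, ?_⟩
      rintro ⟨A, hA⟩
      rw [q_eq] at hA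
      have hlim : Tendsto (fun n => zb b (some (0, n))) atTop (𝓝 (2 * b - b ^ 2)) := by
        have h1 : Tendsto (fun n => r n * (2 * b - b ^ 2) + (1 - r n) * b ^ 2) atTop
            (𝓝 (1 * (2 * b - b ^ 2) + (1 - 1) * b ^ 2)) :=
          (r_tendsto.mul_const _).add ((r_tendsto.const_sub 1).mul_const _)
        simp only [one_mul, sub_self, zero_mul, add_zero] at h1
        exact h1
      have hb1 : 0 < 2 * b - b ^ 2 := by nlinarith [hb.1, hb.2]
      have hb2 : 2 * b - b ^ 2 < 1 := by nlinarith [hb.1, hb.2]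
      by_cases hinf : ∀ n, ∃ k, n ≤ k ∧ some (0, k) ∈ A
      · have h2 : ∀ n, zb b (some (0, n)) ≤ 1 - r n := by
          intro n
          rw [hA]
          exact beta_high A 0 hinf n
        have h3 := le_of_tendsto_of_tendsto' hlim (r_tendsto.const_sub 1) h2
        linarith
      · push Not at hinf
        obtain ⟨N, hN⟩ := hinf
        have h2 : ∀ᶠ n in atTop, r n ≤ zb b (some (0, n)) := by
          filter_upwards [eventually_ge_atTop N] with n hn
          rw [hA]
          exact beta_low A 0 N hN n hn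
        have h3 := le_of_tendsto_of_tendsto r_tendsto hlim h2
        linarith
    rw [← Cardinal.mk_Ioo_real (zero_lt_one (α := ℝ))]
    refine Cardinal.mk_le_of_injective (f := fun b : Ioo (0 : ℝ) 1 =>
      (⟨zb b, hnot b b.2⟩ : (F nu \ E nu : Set (Y → ℝ)))) fun b b' h => ?_
    have h1 : zb b = zb b' := congrArg Subtype.val h
    have h2 : (b : ℝ) ^ 2 = (b' : ℝ) ^ 2 := congrFun h1 none
    exact Subtype.ext ((pow_left_inj₀ b.2.1.le b'.2.1.le (by norm_num)).mp h2)

end

end Pool.Agent.Results.MP_46e535_pr.BothInfinite
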